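import Mathlib

set_option autoImplicit false

namespace Pool.Agent.Results.MP_f38362_gt.OpenPoint

open Filter Topology Set
open scoped Cardinal

def hist {α : Type} (U : ℕ → α) : ℕ → List α
  | 0 => []
  | n + 1 => U n :: hist U n

def OpenWins (X : Type) [TopologicalSpace X] : Prop :=
  ∃ σ : List X → Set X, (∀ l, IsOpen (σ l) ∧ (σ l).Nonempty) ∧
    ∀ x : ℕ → X, (∀ n, x n ∈ σ (hist x n)) → Dense (range x)

def PointWins (X : Type) [TopologicalSpace X] : Prop :=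
  ∃ τ : List (Set X) → X, (∀ U l, IsOpen U → U.Nonempty → τ (U :: l) ∈ U) ∧
    ∀ U : ℕ → Set X, (∀ n, IsOpen (U n) ∧ (U n).Nonempty) →
      ¬ Dense (range fun n => τ (hist U (n + 1)))

theorem cl {β : Type} {s : Set β} (h : s.Countable) : {l : List β | ∀ b ∈ l, b ∈ s}.Countable := by
  haveI := h.to_subtype
  refine (countable_range (List.map (Subtype.val : s → β))).mono fun l hl => ?_
  lift l to List s using hl
  exact ⟨l, rfl⟩

theorem hist_map {α β : Type} (f : α → β) (U : ℕ → α) :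
    ∀ n, hist (fun i => f (U i)) n = (hist U n).map f
  | 0 => rfl
  | n + 1 => congrArg (f (U n) :: ·) (hist_map f U n)

theorem hist_mem {α : Type} (U : ℕ → α) : ∀ n, ∀ a ∈ hist U n, a ∈ range U
  | 0 => fun _ h => absurd h List.not_mem_nil
  | n + 1 => fun a h => (List.mem_cons.1 h).elim (fun e => ⟨n, e.symm⟩) (hist_mem U n a)

variable {I : Type} [LinearOrder I] [WellFoundedLT I] [Uncountable I]

def St (S : Set I) : Prop := ∀ G : I → I, ∃ δ ∈ S, (∃ a, a < δ) ∧ ∀ a < δ, G a < δ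

theorem cic (h : ∀ a : I, (Iio a).Countable) (a : I) : (Iic a).Countable := by
  rw [← Iio_insert]
  exact (h a).insert a

theorem bd (h : ∀ a : I, (Iio a).Countable) {A : Set I} (hA : A.Countable) :
    ∃ c, ∀ a ∈ A, a < c := by
  obtain ⟨c, hc⟩ := (ne_univ_iff_exists_notMem _).1 fun e => not_countable_univ
    (e ▸ hA.biUnion fun a _ => cic h a : (univ : Set I).Countable)
  exact ⟨c, fun a ha => not_le.1 fun h1 => hc (mem_biUnion ha h1)⟩

theorem club (h : ∀ a : I, (Iio a).Countable) (G : I → I) (b : I) :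
    ∃ δ, b < δ ∧ ∀ a < δ, G a < δ := by
  choose f hf using fun c => bd h (((cic h c).image G).insert c)
  obtain ⟨δ, h1, h2⟩ := wellFounded_lt.has_min {c | ∀ a ∈ range fun n => f^[n] b, a < c}
    (bd h (countable_range _))
  refine ⟨δ, h1 _ ⟨0, rfl⟩, fun a ha => ?_⟩
  obtain ⟨n, hn⟩ : ∃ n, a ≤ f^[n] b := by
    by_contra h3
    push Not at h3
    exact h2 a (by rintro _ ⟨n, rfl⟩; exact h3 n) ha
  exact (hf _ _ (Or.inr ⟨a, hn, rfl⟩)).trans (h1 _ ⟨n + 1, Function.iterate_succ_apply' f n b⟩)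

theorem split (h : ∀ a : I, (Iio a).Countable) {r : I → ℕ → Bool} (hr : Function.Injective r) :
    ∃ S : Set I, St S ∧ St Sᶜ := by
  by_contra hc
  have h1 : ∀ n, ∃ (c : Bool) (G : I → I), ∀ δ, (∃ a, a < δ) → (∀ a < δ, G a < δ) → r δ n = c :=
    fun n => by
      by_cases h1 : St {δ | r δ n = true}
      · obtain ⟨G, hG⟩ := not_forall.1 fun h2 => hc ⟨_, h1, h2⟩
        exact ⟨true, G, fun δ h2 h3 => by_contra fun h4 => hG ⟨δ, h4, h2, h3⟩⟩
      · obtain ⟨G, hG⟩ := not_forall.1 h1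
        exact ⟨false, G, fun δ h2 h3 => Bool.eq_false_iff.2 fun h4 => hG ⟨δ, h4, h2, h3⟩⟩
  choose c G h1 using h1
  choose F hF using fun a => bd h (countable_range fun n => G n a)
  obtain ⟨δ, h2, h3⟩ := club h F (Classical.arbitrary I)
  obtain ⟨γ, h4, h5⟩ := club h F δ
  exact h4.ne (hr (funext fun n =>
    (h1 n δ ⟨_, h2⟩ fun a ha => (hF a _ ⟨n, rfl⟩).trans (h3 a ha)).trans
      (h1 n γ ⟨_, h4⟩ fun a ha => (hF a _ ⟨n, rfl⟩).trans (h5 a ha)).symm))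

theorem St.cls (h : ∀ a : I, (Iio a).Countable) {S : Set I} (hS : St S) (Ψ : I → Set I)
    (hΨ : ∀ a, (Ψ a).Countable) : ∃ δ ∈ S, (∀ l : List I, (∀ b ∈ l, b < δ) →
      ∃ a < δ, ∀ b ∈ l, b < a) ∧ ∀ a < δ, ∀ b ∈ Ψ a, b < δ := by
  choose G hG using fun a => bd h ((hΨ a).insert a)
  obtain ⟨δ, h1, h2, h3⟩ := hS G
  refine ⟨δ, h1, fun l => ?_, fun a ha b hb => (hG a b (Or.inr hb)).trans (h3 a ha)⟩
  induction l with
  | nil => exact fun _ => h2.imp fun a ha => ⟨ha, fun _ h => absurd h List.not_mem_nil⟩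
  | cons c l ih =>
    intro h4
    obtain ⟨a, h5, h6⟩ := ih fun b hb => h4 b (List.mem_cons_of_mem _ hb)
    refine ⟨max a (G c), max_lt h5 (h3 c (h4 c List.mem_cons_self)), fun b hb => ?_⟩
    rcases List.mem_cons.1 hb with rfl | hb
    · exact (hG b b (Or.inl rfl)).trans_le (le_max_right _ _)
    · exact (h6 b hb).trans_le (le_max_left _ _)

theorem ladder (h : ∀ a : I, (Iio a).Countable) (δ : I) : ∃ C : Set I, C ⊆ Iio δ ∧
    (∀ a < δ, ∃ b ∈ C, a ≤ b) ∧ ∀ a < δ, (C ∩ Iio a).Finite := by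
  rcases (Iio δ).eq_empty_or_nonempty with h1 | h1
  · exact ⟨∅, empty_subset _, fun a ha => absurd (h1 ▸ ha : a ∈ (∅ : Set I)) id, by simp⟩
  obtain ⟨e, he⟩ := (h δ).exists_eq_range h1
  have h2 : ∀ a < δ, ∃ n, e n = a := fun a ha => (he ▸ ha : a ∈ range e)
  refine ⟨range (partialSups e), ?_, fun a ha => ?_, fun a ha => ?_⟩
  · rintro _ ⟨n, rfl⟩
    induction n with
    | zero => exact he ▸ ⟨0, rfl⟩
    | succ n ih =>
      rw [partialSups_add_one]
      exact max_lt ih (he ▸ ⟨n + 1, rfl⟩ : e (n + 1) ∈ Iio δ)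
  · obtain ⟨n, rfl⟩ := h2 a ha
    exact ⟨_, ⟨n, rfl⟩, le_partialSups e n⟩
  · obtain ⟨n, rfl⟩ := h2 a ha
    refine ((finite_Iio n).image (partialSups e)).subset ?_
    rintro _ ⟨⟨m, rfl⟩, hm⟩
    exact ⟨m, not_le.1 fun h3 => (le_partialSups_of_le e h3).not_gt hm, rfl⟩

theorem main (h : ∀ a : I, (Iio a).Countable) {r : I → ℕ → Bool} (hr : Function.Injective r) :
    ∃ (X : Type) (_ : TopologicalSpace X), T2Space X ∧ ¬ OpenWins X ∧ ¬ PointWins X := by
  classical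
  obtain ⟨S, s1, s2⟩ := split h hr
  choose C c1 c2 c3 using ladder h
  let X := {p : I × (ℕ → Bool) // ∀ᶠ n in atTop, p.2 n = r p.1 n.unpair.1}
  let B : List I → Set I := fun F => {a | a ∈ F ∨ ∃ γ ∈ F, γ ∈ S ∧ a ∈ C γ}
  let N : ℕ → (ℕ → Bool) → List I → Set X := fun n y F =>
    {z | (∀ i < n, z.1.2 i = y i) ∧ z.1.1 ∉ B F}
  let pt : ℕ → (ℕ → Bool) → I → X := fun n y a =>
    ⟨(a, fun i => if i < n then y i else r a i.unpair.1),
      (eventually_ge_atTop n).mono fun i hi => if_neg (not_lt.2 hi)⟩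
  have p1 : ∀ n y F a, a ∉ B F → pt n y a ∈ N n y F := fun n y F a ha =>
    ⟨fun i hi => if_pos hi, ha⟩
  have p2 : ∀ n y F, (N n y F).Nonempty := fun n y F => by
    obtain ⟨a, ha⟩ := bd h (F.finite_toSet.countable)
    refine ⟨_, p1 n y F a ?_⟩
    rintro (h1 | ⟨γ, h1, -, h2⟩)
    · exact (ha a h1).false
    · exact ((c1 γ h2).trans (ha γ h1)).false
  letI : TopologicalSpace X :=
    { IsOpen := fun U => ∀ x ∈ U, ∃ n F, x.1.1 ∉ B F ∧ N n x.1.2 F ⊆ U
      isOpen_univ := fun _ _ => ⟨0, [], by simp [B], subset_univ _⟩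
      isOpen_inter := fun U V h1 h2 x hx => by
        obtain ⟨n, F, a1, a2⟩ := h1 x hx.1
        obtain ⟨m, G, a3, a4⟩ := h2 x hx.2
        have : B (F ++ G) = B F ∪ B G := by
          ext z
          simp only [B, List.mem_append, mem_union, mem_setOf_eq, or_and_right, exists_or]
          exact or_or_or_comm
        exact ⟨max n m, F ++ G, fun h => (this ▸ h : _ ∈ B F ∪ B G).elim a1 a3, fun z hz =>
          ⟨a2 ⟨fun i hi => hz.1 i (lt_max_of_lt_left hi), fun h => hz.2 (this ▸ Or.inl h)⟩,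
            a4 ⟨fun i hi => hz.1 i (lt_max_of_lt_right hi), fun h => hz.2 (this ▸ Or.inr h)⟩⟩⟩
      isOpen_sUnion := fun T h1 x ⟨U, h2, h3⟩ => by
        obtain ⟨n, F, a1, a2⟩ := h1 U h2 x h3
        exact ⟨n, F, a1, a2.trans (subset_sUnion_of_mem h2)⟩ }
  have p3 : ∀ n y F, IsOpen (N n y F) := fun n y F x hx =>
    ⟨n, F, hx.2, fun z hz => ⟨fun i hi => (hz.1 i hi).trans (hx.1 i hi), hz.2⟩⟩
  have p4 : ∀ U : Set X, IsOpen U → U.Nonempty → ∃ n y F, N n y F ⊆ U := fun U h1 ⟨x, hx⟩ => by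
    obtain ⟨n, F, -, h2⟩ := h1 x hx
    exact ⟨n, _, F, h2⟩
  refine ⟨X, inferInstance, ⟨fun x y hxy => ?_⟩, ?_, ?_⟩
  · obtain ⟨i, hi⟩ : ∃ i, x.1.2 i ≠ y.1.2 i := by
      by_contra h1
      push Not at h1
      refine hxy (Subtype.ext (Prod.ext (hr (funext fun k => ?_)) (funext h1)))
      obtain ⟨m, hm⟩ := eventually_atTop.1 (x.2.and y.2)
      have := hm (Nat.pair k m) (Nat.right_le_pair k m)
      rw [Nat.unpair_pair] at this
      exact this.1.symm.trans ((h1 _).trans this.2)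
    exact ⟨_, _, p3 (i + 1) x.1.2 [], p3 (i + 1) y.1.2 [], ⟨fun _ _ => rfl, by simp [B]⟩,
      ⟨fun _ _ => rfl, by simp [B]⟩, disjoint_left.2 fun z h1 h2 =>
        hi ((h1.1 i i.lt_succ_self).symm.trans (h2.1 i i.lt_succ_self))⟩
  · rintro ⟨σ, a1, a2⟩
    choose n y F a3 using fun l => p4 _ (a1 l).1 (a1 l).2
    let H : List I → List X := fun l => l.rec [] fun a _ t => pt (n t) (y t) a :: t
    obtain ⟨δ, b1, b2, b3⟩ := s1.cls h (fun a => ⋃ l ∈ {l : List I | ∀ b ∈ l, b ∈ Iio a},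
      {b | b ∈ F (H l)}) fun a => (cl (h a)).biUnion fun l _ => (F (H l)).finite_toSet.countable
    have b4 : ∀ l : List I, ∃ a ∈ C δ, (∀ b ∈ l, b < δ) → a ∉ B (F (H l)) := fun l => by
      by_cases h1 : ∀ b ∈ l, b < δ
      · obtain ⟨a, h2, h3⟩ := b2 l h1
        obtain ⟨c, h4, h5⟩ := b2 _ fun b hb => b3 a h2 b (mem_biUnion h3 hb)
        obtain ⟨d, h6, h7⟩ := c2 δ c h4
        refine ⟨d, h6, fun _ => ?_⟩
        rintro (h8 | ⟨γ, h8, -, h9⟩)
        · exact (h5 d h8).not_ge h7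
        · exact ((c1 γ h9).trans (h5 γ h8)).not_ge h7
      · obtain ⟨a, h2, -⟩ := b2 [] (by simp)
        obtain ⟨d, h3, -⟩ := c2 δ a h2
        exact ⟨d, h3, fun h4 => absurd h4 h1⟩
    choose g b4 b5 using b4
    let L : ℕ → List I := fun k => k.rec [] fun _ l => g l :: l
    let x : ℕ → X := fun k => pt (n (H (L k))) (y (H (L k))) (g (L k))
    have b6 : ∀ k, hist x k = H (L k) ∧ ∀ b ∈ L k, b < δ := fun k => by
      induction k with
      | zero => exact ⟨rfl, fun _ h => absurd h List.not_mem_nil⟩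
      | succ k ih => exact ⟨congrArg (x k :: ·) ih.1, fun b hb =>
          (List.mem_cons.1 hb).elim (fun e => e ▸ c1 δ (b4 _)) (ih.2 b)⟩
    obtain ⟨_, ⟨k, rfl⟩, b7⟩ := (a2 x fun k => (b6 k).1 ▸ a3 _ (p1 _ _ _ _
      (b5 _ (b6 k).2))).exists_mem_open (p3 0 (fun _ => true) [δ]) (p2 _ _ _)
    exact b7.2 (Or.inr ⟨δ, List.mem_cons_self, b1, b4 _⟩)
  · rintro ⟨τ, a1, a2⟩
    let M : List Bool × List I → Set X := fun c => N c.1.length (fun i => c.1.getD i true) c.2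
    obtain ⟨δ, b1, b2, b3⟩ := s2.cls h (fun a => (fun L => (τ (L.map M)).1.1) ''
      {L | ∀ c ∈ L, c ∈ (univ : Set (List Bool)) ×ˢ {l : List I | ∀ b ∈ l, b ∈ Iio a}})
      fun a => (cl (countable_univ.prod (cl (h a)))).image _
    obtain ⟨e, he⟩ := ((countable_univ (α := List Bool)).prod (cl (h δ))).exists_eq_range
      ⟨([], []), trivial, by simp⟩
    have b4 : ∀ k, ∀ b ∈ (e k).2, b < δ := fun k =>
      (he.symm ▸ mem_range_self k : e k ∈ univ ×ˢ {l : List I | ∀ b ∈ l, b ∈ Iio δ}).2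
    have b5 : ∀ k, (τ (hist (fun i => M (e i)) (k + 1))).1.1 < δ := fun k => by
      obtain ⟨a, h1, h2⟩ := b2 ((hist e (k + 1)).flatMap Prod.snd) fun b hb => by
        obtain ⟨c, h1, h2⟩ := List.mem_flatMap.1 hb
        obtain ⟨i, rfl⟩ := hist_mem e _ c h1
        exact b4 i b h2
      rw [hist_map M e]
      exact b3 a h1 _ ⟨_, fun c hc => ⟨trivial, fun b hb =>
        h2 b (List.mem_flatMap.2 ⟨c, hc, hb⟩)⟩, rfl⟩
    refine a2 (fun i => M (e i)) (fun i => ⟨p3 _ _ _, p2 _ _ _⟩)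
      (dense_iff_inter_open.2 fun U h1 h2 => ?_)
    obtain ⟨n, y, F, h3⟩ := p4 U h1 h2
    have h4 : ({b ∈ F | b < δ} ∪ ⋃ γ ∈ {b ∈ F | δ < b}, C γ ∩ Iio δ : Set I).Finite :=
      (F.finite_toSet.subset fun _ h => h.1).union
        ((F.finite_toSet.subset fun _ h => h.1).biUnion fun γ hγ => c3 γ δ hγ.2)
    obtain ⟨k, hk⟩ : ((List.range n).map y, h4.toFinset.toList) ∈ range e := by
      rw [← he]
      refine ⟨trivial, fun b hb => ?_⟩
      rcases h4.mem_toFinset.1 (Finset.mem_toList.1 hb) with h5 | h5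
      · exact h5.2
      · obtain ⟨_, _, h6⟩ := mem_iUnion₂.1 h5
        exact h6.2
    have h5 := a1 (M (e k)) (hist (fun i => M (e i)) k) (p3 _ _ _) (p2 _ _ _)
    have h6 := b5 k
    refine ⟨_, h3 ?_, k, rfl⟩
    change τ (hist (fun i => M (e i)) (k + 1)) ∈ M (e k) at h5
    change τ (hist (fun i => M (e i)) (k + 1)) ∈ N n y F
    generalize τ (hist (fun i => M (e i)) (k + 1)) = x at h5 h6 ⊢
    rw [hk] at h5
    have h7 : ∀ b, b ∈ ({b ∈ F | b < δ} ∪ ⋃ γ ∈ {b ∈ F | δ < b}, C γ ∩ Iio δ : Set I) →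
        b ∈ h4.toFinset.toList := fun b hb => Finset.mem_toList.2 (h4.mem_toFinset.2 hb)
    refine ⟨fun i hi => (h5.1 i (by simpa using hi)).trans (by simp [hi]), ?_⟩
    rintro (h8 | ⟨γ, h8, h9, h10⟩)
    · exact h5.2 (Or.inl (h7 _ (Or.inl ⟨h8, h6⟩)))
    · rcases lt_trichotomy γ δ with h11 | rfl | h11
      · exact h5.2 (Or.inr ⟨γ, h7 _ (Or.inl ⟨h8, h11⟩), h9, h10⟩)
      · exact b1 h9
      · exact h5.2 (Or.inl (h7 _ (Or.inr (mem_biUnion ⟨h8, h11⟩ ⟨h10, h6⟩))))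

theorem result : ∃ (X : Type) (_ : TopologicalSpace X), T2Space X ∧ ¬ OpenWins X ∧ ¬ PointWins X := by
  obtain ⟨T, hT⟩ : ∃ T : Type, #T = ℵ₁ := ⟨_, Cardinal.mk_out _⟩
  obtain ⟨_, _, ho⟩ := Cardinal.exists_ord_eq_type_lt T
  haveI : Uncountable T := Cardinal.aleph0_lt_mk_iff.1 (hT ▸ Cardinal.aleph0_lt_aleph_one)
  obtain ⟨r⟩ : Nonempty (T ↪ (ℕ → Bool)) := by
    rw [← Cardinal.le_def, hT]
    simpa using Cardinal.aleph_one_le_continuum
  refine main (fun a => Cardinal.le_aleph0_iff_set_countable.1 (Order.lt_succ_iff.1 ?_)) r.injective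
  rw [Cardinal.succ_aleph0, ← hT]
  exact Cardinal.mk_Iio_lt a ho

end Pool.Agent.Results.MP_f38362_gt.OpenPoint
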